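import Pool.Agent.MWF.Stmts

set_option autoImplicit false

namespace Pool.Agent.MWF.H60

open Pool.Agent.Helper14_MV Pool.Agent.Helper2_MV

theorem mem_dbl {c : ℕ} {l : List ℕ} : c ∈ dbl l ↔ c ∈ l := by
  unfold dbl
  rw [List.mem_flatMap]
  constructor
  · rintro ⟨d, hd, hc⟩
    rcases List.mem_cons.1 hc with h | h
    · exact h ▸ hd
    · rw [List.mem_singleton.1 h]
      exact hd
  · intro h
    exact ⟨c, h, List.mem_cons_self⟩

theorem zer (h : AbsStmt) : ZerStmt := by
  intro β hm ha
  have key : ∀ u l : List ℕ, (∀ c ∈ l, c ∈ u) → RR β (dbl u ++ dbl u ++ l) (dbl u ++ dbl u) ∧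
      RR β (l ++ (dbl u ++ dbl u)) (dbl u ++ dbl u) := by
    intro u l
    induction l with
    | nil =>
      intro _
      rw [List.append_nil, List.nil_append]
      exact ⟨RR.refl _, RR.refl _⟩
    | cons c l ih =>
      intro hc
      have h1 := ih (fun d hd => hc d (List.mem_cons_of_mem _ hd))
      have h2 := h β hm ha u c (hc c List.mem_cons_self)
      constructor
      · have h3 := h2.1.append (RR.refl (β := β) l)
        have e : dbl u ++ dbl u ++ [c] ++ l = dbl u ++ dbl u ++ c :: l := by
          rw [List.append_assoc (dbl u ++ dbl u), List.singleton_append]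
        rw [e] at h3
        exact β.trans h3 h1.1
      · have h3 := (RR.refl (β := β) [c]).append h1.2
        rw [List.singleton_append, List.singleton_append] at h3
        exact β.trans h3 h2.2
  refine ⟨?_, key⟩
  intro u v huv
  have h1 := (key u (dbl v ++ dbl v) (by
    intro c hc
    rcases List.mem_append.1 hc with h' | h' <;> exact (huv c).2 (mem_dbl.1 h'))).1
  have h2 := (key v (dbl u ++ dbl u) (by
    intro c hc
    rcases List.mem_append.1 hc with h' | h' <;> exact (huv c).1 (mem_dbl.1 h'))).2
  exact β.trans h1.symm h2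

end Pool.Agent.MWF.H60
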